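import Pool.Agent.G02.Stmts

/-!
# Squad G02 (MP_ba5221_nt), row SUA: supports in recipe A
-/

set_option autoImplicit false

namespace Pool.Agent.G02.H94

open Pool.Agent.G02

theorem leg_sq (l : ℕ) [Fact l.Prime] (m n : ℤ) (hm : ¬ (l : ℤ) ∣ m) :
    legendreSym l (m ^ 2 * n) = legendreSym l n := by
  have h : (m : ZMod l) ≠ 0 := fun h => hm ((ZMod.intCast_zmod_eq_zero_iff_dvd m l).1 h)
  rw [legendreSym.mul, legendreSym.sq_one' l h, one_mul]

theorem ndvd_prime (l p : ℕ) (hl : l.Prime) (hp : p.Prime) (h : l ≠ p) : ¬ (l : ℤ) ∣ (p : ℤ) :=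
  fun h' => h ((Nat.prime_dvd_prime_iff_eq hl hp).1 (Int.natCast_dvd_natCast.1 h'))

/-- the common argument: `b = c k²`, `l ∣ d`, `¬ l ∣ c` is impossible -/
theorem core (lh : LhStmt) (k : ℤ) (hk : Squarefree k) (a₀ b₀ s n d M e N B : ℤ)
    (hQ : Qt (k * a₀) (k ^ 2 * b₀) d M e N B) (hs : a₀ ^ 2 - 4 * b₀ = s ^ 2 * n) (l : ℕ)
    (hl : l.Prime) (h2 : l ≠ 2) (hd : (l : ℤ) ∣ d) (hb : ¬ (l : ℤ) ∣ b₀) (hsl : ¬ (l : ℤ) ∣ s)
    (leg : ∀ [Fact l.Prime], (l : ℤ) ∣ k → legendreSym l n = -1) : False := by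
  haveI : Fact l.Prime := ⟨hl⟩
  have hp : Prime (l : ℤ) := Nat.prime_iff_prime_int.1 hl
  have h1 : (l : ℤ) ∣ k ^ 2 * b₀ := by
    rw [hQ.hb]
    exact Dvd.dvd.mul_right hd B
  have hlk : (l : ℤ) ∣ k := by
    rcases hp.dvd_or_dvd h1 with h | h
    · exact hp.dvd_of_dvd_pow h
    · exact absurd h hb
  obtain ⟨k', hk'⟩ := hlk
  have hlk' : ¬ (l : ℤ) ∣ k' := by
    rintro ⟨c, hc⟩
    have h3 : (l : ℤ) * l ∣ k := ⟨c, by rw [hk', hc]; ring⟩
    exact hp.not_unit (hk _ h3)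
  have hsk : ¬ (l : ℤ) ∣ k' * s := fun h => by
    rcases hp.dvd_or_dvd h with h | h
    · exact hlk' h
    · exact hsl h
  have key := lh _ _ d M e N B hQ l (k' * a₀) (k' ^ 2 * b₀) h2 (by rw [hk']; ring)
    (by rw [hk']; ring) (by
      have e1 : (k' * a₀) ^ 2 - 4 * (k' ^ 2 * b₀) = (k' * s) ^ 2 * n := by
        have : (k' * a₀) ^ 2 - 4 * (k' ^ 2 * b₀) = k' ^ 2 * (a₀ ^ 2 - 4 * b₀) := by ring
        rw [this, hs]; ring
      rw [e1, leg_sq l _ _ hsk]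
      exact leg ⟨k', hk'⟩)
  exact key hd

theorem sua (lh : LhStmt) : SuaStmt := by
  intro k p q r hR d M e N B
  have hpp := hR.pp
  have hqq := hR.pq
  have hrr := hR.pr
  have hr : (r : ℤ) = 2 * q - p := hR.hr
  have two : ∀ l : ℕ, l.Prime → l ≠ 2 → ¬ (l : ℤ) ∣ 2 := fun l hl h2 => by
    have := ndvd_prime l 2 hl Nat.prime_two h2
    simpa using this
  have dm : ∀ l : ℕ, l.Prime → ∀ x y : ℤ, ¬ (l : ℤ) ∣ x → ¬ (l : ℤ) ∣ y → ¬ (l : ℤ) ∣ x * y :=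
    fun l hl x y hx hy h => by
      rcases (Nat.prime_iff_prime_int.1 hl).dvd_or_dvd h with h | h
      · exact hx h
      · exact hy h
  have dp : ∀ l : ℕ, l.Prime → ∀ (x : ℤ) (n : ℕ), ¬ (l : ℤ) ∣ x → ¬ (l : ℤ) ∣ x ^ n :=
    fun l hl x n hx h => hx ((Nat.prime_iff_prime_int.1 hl).dvd_of_dvd_pow h)
  refine ⟨?_, ?_, ?_, ?_⟩
  · intro hQ l hl hd
    by_contra hc
    simp only [not_or] at hc
    obtain ⟨c2, cp, cq, -⟩ := hc
    have n2 := two l hl c2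
    have np := ndvd_prime l p hl hpp cp
    have nq := ndvd_prime l q hl hqq cq
    refine core lh k hR.sqf (2 * p * q) (2 * p * q ^ 3) (2 * q) (-(p * r)) d M e N B ?_ ?_ l hl c2
      hd (dm l hl _ _ (dm l hl _ _ n2 np) (dp l hl _ _ nq)) (dm l hl _ _ n2 nq) ?_
    · have e1 : k * (2 * p * q) = 2 * k * p * q := by ring
      have e2 : k ^ 2 * (2 * p * q ^ 3) = 2 * k ^ 2 * p * q ^ 3 := by ring
      rw [e1, e2]; exact hQ
    · rw [hr]; ring
    · intro _ hk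
      exact (hR.leg l c2 hk).2
  · intro hQ l hl hd
    by_contra hc
    simp only [not_or] at hc
    obtain ⟨c2, cp, cq, cr⟩ := hc
    have n2 := two l hl c2
    have np := ndvd_prime l p hl hpp cp
    have nq := ndvd_prime l q hl hqq cq
    have nr := ndvd_prime l r hl hrr cr
    refine core lh k hR.sqf (-(4 * p * q)) (-(4 * p * q ^ 2 * r)) (4 * q) (2 * p * q) d M e N B
      ?_ ?_ l hl c2 hd ?_ ?_ ?_
    · have e1 : k * (-(4 * p * q)) = -(4 * k * p * q) := by ring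
      have e2 : k ^ 2 * (-(4 * p * q ^ 2 * r)) = -(4 * k ^ 2 * p * q ^ 2 * r) := by ring
      rw [e1, e2]; exact hQ
    · rw [hr]; ring
    · rw [Int.dvd_neg]
      have e4 : (4 : ℤ) = 2 ^ 2 := by norm_num
      rw [e4]
      exact dm l hl _ _ (dm l hl _ _ (dm l hl _ _ (dp l hl _ _ n2) np) (dp l hl _ _ nq)) nr
    · have e4 : (4 : ℤ) = 2 ^ 2 := by norm_num
      rw [e4]
      exact dm l hl _ _ (dp l hl _ _ n2) nq
    · intro _ hk
      exact (hR.leg l c2 hk).1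
  · intro hQ l hl hd
    by_contra hc
    simp only [not_or] at hc
    obtain ⟨c2, cp, cq, -⟩ := hc
    have n2 := two l hl c2
    have np := ndvd_prime l p hl hpp cp
    have nq := ndvd_prime l q hl hqq cq
    refine core lh k hR.sqf (4 * p ^ 2) (8 * p ^ 3 * q) (4 * p) (-(p * r)) d M e N B ?_ ?_ l hl c2
      hd ?_ ?_ ?_
    · have e1 : k * (4 * p ^ 2) = 4 * k * p ^ 2 := by ring
      have e2 : k ^ 2 * (8 * p ^ 3 * q) = 8 * k ^ 2 * p ^ 3 * q := by ring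
      rw [e1, e2]; exact hQ
    · rw [hr]; ring
    · have e8 : (8 : ℤ) = 2 ^ 3 := by norm_num
      rw [e8]
      exact dm l hl _ _ (dm l hl _ _ (dp l hl _ _ n2) (dp l hl _ _ np)) nq
    · have e4 : (4 : ℤ) = 2 ^ 2 := by norm_num
      rw [e4]
      exact dm l hl _ _ (dp l hl _ _ n2) np
    · intro _ hk
      exact (hR.leg l c2 hk).2
  · intro hQ l hl hd
    by_contra hc
    simp only [not_or] at hc
    obtain ⟨c2, cp, -, cr⟩ := hc
    have n2 := two l hl c2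
    have np := ndvd_prime l p hl hpp cp
    have nr := ndvd_prime l r hl hrr cr
    refine core lh k hR.sqf (-(8 * p ^ 2)) (-(16 * p ^ 3 * r)) (8 * p) (2 * p * q) d M e N B
      ?_ ?_ l hl c2 hd ?_ ?_ ?_
    · have e1 : k * (-(8 * p ^ 2)) = -(8 * k * p ^ 2) := by ring
      have e2 : k ^ 2 * (-(16 * p ^ 3 * r)) = -(16 * k ^ 2 * p ^ 3 * r) := by ring
      rw [e1, e2]; exact hQ
    · rw [hr]; ring
    · rw [Int.dvd_neg]
      have e4 : (16 : ℤ) = 2 ^ 4 := by norm_num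
      rw [e4]
      exact dm l hl _ _ (dm l hl _ _ (dp l hl _ _ n2) (dp l hl _ _ np)) nr
    · have e4 : (8 : ℤ) = 2 ^ 3 := by norm_num
      rw [e4]
      exact dm l hl _ _ (dp l hl _ _ n2) np
    · intro _ hk
      exact (hR.leg l c2 hk).1

end Pool.Agent.G02.H94
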